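import Mathlib
import Pool.Agent.Helper89.SR.Main

/-!
Cyclic branched covers of alternating odd pretzel links in the range of the spherical Brieskorn
manifolds, with independent fillings of all lifts of the circles around the bands: the
fundamental group is not left-orderable.
-/

set_option autoImplicit false

namespace Pool.Agent.Results.MP_9ae2f3_gt.SphericalRings

open Pool.Agent.Helper89.SR
open Pool.Agent.Helper42.Th (Fill)

/-- Let `b` and `n` be positive with `(b - 2) (n - 2) < 4` (that is, `b ≤ 2`, or `n ≤ 2`, or
`(b, n)` is one of `(3, 3)`, `(3, 4)`, `(3, 5)`, `(4, 3)`, `(5, 3)`).  Let `G` be generated by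
elements `h i j`, `m i j`, `t i` which satisfy the relations of the fundamental group of the
`n`-fold cyclic branched cover of the torus link `T(2, b)`, from which the lifts of the circles
around the `b` bands have been drilled out, and by elements `S i j` of manifolds which fill the
tori number `(i, j)` with slopes at least zero: for a solid torus of slope `c / d`, the relation
is `m i j ^ d = circle i j ^ c`.  Then `G` is not left-orderable.

If `m i j = circle i j ^ a j` for all `i`, these are the relations of the fundamental group of
the `n`-fold cyclic branched cover of the pretzel link `P(2 a 0 + 1, …, 2 a (b - 1) + 1)`. -/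
theorem result (b n : ℕ) (hb : 0 < b) (hn : 0 < n) (hs : (b - 2) * (n - 2) < 4)
    (G : Type*) [Group G] (g : Grid G b n) (S : ZMod n → ZMod b → Set G)
    (hS : ∀ i j, Fill false 0 (g.m i j) (g.circle i j) (S i j))
    (hgen : Subgroup.closure (g.elts ∪ ⋃ i, ⋃ j, S i j) = ⊤) :
    ¬ (Nontrivial G ∧ ∃ _ : LinearOrder G, ∀ f g h : G, g ≤ h → f * g ≤ f * h) :=
  not_leftOrderable' hb hn hs g hS hgen

end Pool.Agent.Results.MP_9ae2f3_gt.SphericalRings
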